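import Mathlib
import Pool.Agent.Lib.MP_3ec1f3_nt.Global

set_option autoImplicit false

namespace Pool.Agent.Results.MP_3ec1f3_nt.Supercongruence

open Finset Pool.Agent.Lib.MP_3ec1f3_nt

/-- `α_r = (p^r - 1) / (p^(r+1) - 1)`. -/
def alpha (p r : ℕ) : ℚ := ((p : ℚ) ^ r - 1) / ((p : ℚ) ^ (r + 1) - 1)

/-- `N_r = (p^(r+1) - 1) / (p - 1) = 1 + p + ⋯ + p^r`. -/
def bigN (p r : ℕ) : ℕ := ∑ i ∈ range (r + 1), p ^ i

/-- `S_r(p) = ∑_{k=0}^{p^r-1} (2k/α_r + 1) ((α_r)_k / k!)^(2 N_r)`. -/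
noncomputable def S (p r : ℕ) : ℚ :=
  ∑ k ∈ range (p ^ r), (2 * (k : ℚ) / alpha p r + 1) *
    ((ascPochhammer ℚ k).eval (alpha p r) / (k.factorial : ℚ)) ^ (2 * bigN p r)

theorem bigN_mul (p r : ℕ) : ((bigN p r : ℕ) : ℚ) * ((p : ℚ) - 1) = (p : ℚ) ^ (r + 1) - 1 := by
  unfold bigN
  push_cast
  exact geom_sum_mul (p : ℚ) (r + 1)

theorem bigN_eq (p r : ℕ) : bigN p r = 1 + p * bigN p (r - 1) ∨ r = 0 := by
  rcases r with _ | r
  · right; rfl
  · left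
    unfold bigN
    rw [sum_range_succ']
    simp only [Nat.add_sub_cancel, pow_zero, mul_sum, pow_succ]
    rw [add_comm]
    congr 1
    exact sum_congr rfl fun i _ => by ring

/-- `α_r = 1 - p^r / N_r`. -/
theorem alpha_eq (p r : ℕ) (hp : 1 < p) :
    alpha p r = 1 - (p : ℚ) ^ r / (bigN p r : ℕ) := by
  have hp1 : ((p : ℚ) - 1) ≠ 0 := by
    have : (1 : ℚ) < p := by exact_mod_cast hp
    linarith
  have hN := bigN_mul p r
  have hpr : (p : ℚ) ^ (r + 1) - 1 ≠ 0 := by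
    have : (1 : ℚ) < (p : ℚ) ^ (r + 1) :=
      one_lt_pow₀ (by exact_mod_cast hp) (by omega)
    linarith
  have hN0 : ((bigN p r : ℕ) : ℚ) ≠ 0 := by
    intro h
    rw [h, zero_mul] at hN
    exact hpr hN.symm
  unfold alpha
  rw [div_eq_iff hpr, ← hN]
  field_simp
  have : ((bigN p r : ℕ) : ℚ) * ((p : ℚ) - 1) = (p : ℚ) ^ r * p - 1 := by rw [hN]; ring
  linear_combination -this

section padic

variable {p : ℕ} [hp : Fact p.Prime]

theorem isUnit_natCast {n : ℕ} (h : p.Coprime n) : IsUnit (n : ℤ_[p]) := by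
  rw [PadicInt.isUnit_iff]
  exact PadicInt.norm_natCast_eq_one_iff.mpr h

theorem isUnit_one_sub (x : ℤ_[p]) (h : (p : ℤ_[p]) ∣ x) : IsUnit (1 - x) := by
  apply IsLocalRing.isUnit_one_sub_self_of_mem_nonunits
  obtain ⟨y, rfl⟩ := h
  intro hu
  exact PadicInt.p_nonunit (isUnit_of_mul_isUnit_left hu)

theorem h90 (h3 : 3 < p) (x : ℤ_[p]) (h : (p : ℤ_[p]) ^ 6 ∣ 90 * x) : (p : ℤ_[p]) ^ 5 ∣ x := by
  have hpp := hp.out
  by_cases h5 : p = 5
  · subst h5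
    obtain ⟨y, hy⟩ := h
    have hu : IsUnit ((18 : ℕ) : ℤ_[5]) := isUnit_natCast (by norm_num)
    have h50 : ((5 : ℕ) : ℤ_[5]) ≠ 0 := by
      exact_mod_cast (by norm_num : (5 : ℕ) ≠ 0)
    have : ((5 : ℕ) : ℤ_[5]) ^ 5 ∣ ((18 : ℕ) : ℤ_[5]) * x := by
      refine ⟨y, ?_⟩
      apply mul_left_cancel₀ h50
      push_cast at hy ⊢
      linear_combination hy
    exact (hu.dvd_mul_left).mp this
  · have hu : IsUnit ((90 : ℕ) : ℤ_[p]) := by
      apply isUnit_natCast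
      rw [hpp.coprime_iff_not_dvd]
      intro hd
      have h90 : (90 : ℕ) = 2 * 3 ^ 2 * 5 := by norm_num
      rw [h90, hpp.dvd_mul, hpp.dvd_mul] at hd
      rcases hd with (hd | hd) | hd
      · have := Nat.le_of_dvd (by norm_num) hd; omega
      · have := Nat.le_of_dvd (by norm_num) (hpp.dvd_of_dvd_pow hd); omega
      · have := (Nat.prime_dvd_prime_iff_eq hpp (by norm_num)).mp hd
        exact h5 this
    push_cast at hu
    have h56 : (p : ℤ_[p]) ^ 5 ∣ (p : ℤ_[p]) ^ 6 := pow_dvd_pow _ (by norm_num)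
    exact h56.trans ((hu.dvd_mul_left).mp h)

/-- The `p`-adic integers `q / k` for `0 < k < q = p^r`. -/
theorem exists_zeta (r : ℕ) : ∃ ζ : ℕ → ℤ_[p], ∀ j : ℕ, j + 1 < p ^ r →
    ((j : ℤ_[p]) + 1) * ζ j = (p : ℤ_[p]) ^ r ∧ (p : ℤ_[p]) ∣ ζ j := by
  have hpp := hp.out
  have key : ∀ j : ℕ, ∃ z : ℤ_[p], j + 1 < p ^ r →
      ((j : ℤ_[p]) + 1) * z = (p : ℤ_[p]) ^ r ∧ (p : ℤ_[p]) ∣ z := by
    intro j
    by_cases hj : j + 1 < p ^ r
    · obtain ⟨e, n, hn, hen⟩ := Nat.exists_eq_pow_mul_and_not_dvd (Nat.succ_ne_zero j) p hpp.ne_one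
      have hu : IsUnit (n : ℤ_[p]) := isUnit_natCast ((hpp.coprime_iff_not_dvd).mpr hn)
      obtain ⟨n', hn'⟩ := hu.exists_right_inv
      have hn0 : 0 < n := Nat.pos_of_ne_zero (by rintro rfl; exact hn (dvd_zero p))
      have her : e < r := by
        have h1 : p ^ e ≤ j + 1 := by
          have : j + 1 = p ^ e * n := hen
          rw [this]; exact Nat.le_mul_of_pos_right _ hn0
        exact (Nat.pow_lt_pow_iff_right hpp.one_lt).mp (lt_of_le_of_lt h1 hj)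
      refine ⟨(p : ℤ_[p]) ^ (r - e) * n', fun _ => ⟨?_, ?_⟩⟩
      · have h1 : ((j : ℤ_[p]) + 1) = (p : ℤ_[p]) ^ e * n := by
          have : j + 1 = p ^ e * n := hen
          exact_mod_cast this
        rw [h1]
        have h2 : (p : ℤ_[p]) ^ r = (p : ℤ_[p]) ^ e * (p : ℤ_[p]) ^ (r - e) := by
          rw [← pow_add]; congr 1; omega
        rw [h2]
        linear_combination ((p : ℤ_[p]) ^ e * (p : ℤ_[p]) ^ (r - e)) * hn'
      · exact (dvd_pow_self _ (by omega)).mul_right _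
    · exact ⟨0, fun h => absurd h hj⟩
  choose ζ hζ using key
  exact ⟨ζ, hζ⟩

end padic

/-- For every prime `p > 3` and every positive integer `r`, `S_r(p) ≡ 0 (mod p^(2r+5))`, that is
`S_r(p) = p^(2r+5) u / v` with integers `u, v` and `p ∤ v`. -/
theorem result : ∀ p r : ℕ, p.Prime → 3 < p → 0 < r →
    ∃ u v : ℤ, ¬ (p : ℤ) ∣ v ∧ S p r = (p : ℚ) ^ (2 * r + 5) * (u / v) := by
  intro p r hpp h3 hr
  have : Fact p.Prime := ⟨hpp⟩
  obtain ⟨m, hm⟩ : ∃ m, p ^ r = m + 1 :=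
    ⟨p ^ r - 1, by have := Nat.pow_pos (n := r) hpp.pos; omega⟩
  have hodd : Odd (p ^ r) := (hpp.odd_of_ne_two (by omega)).pow
  obtain ⟨h, hh⟩ : ∃ h, m = 2 * h := by
    obtain ⟨h, hh⟩ := hodd
    exact ⟨h, by omega⟩
  obtain ⟨ζ, hζ⟩ := exists_zeta (p := p) r
  have hmq : (m : ℤ_[p]) + 1 = (p : ℤ_[p]) ^ r := by exact_mod_cast hm.symm
  have hNeq : bigN p r = 1 + p * bigN p (r - 1) := (bigN_eq p r).resolve_right (by omega)
  have hN1 : 1 ≤ bigN p (r - 1) := by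
    unfold bigN
    rw [sum_range_succ']
    simp
  have hN3 : 3 ≤ bigN p r := by rw [hNeq]; nlinarith
  have hNu : IsUnit ((bigN p r : ℕ) : ℤ_[p]) := by
    apply isUnit_natCast
    rw [hNeq, Nat.coprime_add_mul_left_right]
    exact Nat.coprime_one_right p
  obtain ⟨t, ht⟩ := hNu.exists_right_inv
  have htπ : (p : ℤ_[p]) ∣ 1 - t := by
    refine ⟨((bigN p (r - 1) : ℕ) : ℤ_[p]) * t, ?_⟩
    have h1 : ((bigN p r : ℕ) : ℤ_[p]) = 1 + p * ((bigN p (r - 1) : ℕ) : ℤ_[p]) := by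
      exact_mod_cast hNeq
    rw [h1] at ht
    linear_combination -ht
  have hmain := main_abstract (p : ℤ_[p]) m ζ
    (fun j hj => by rw [hmq]; exact (hζ j (by omega)).1)
    (fun j hj => (hζ j (by omega)).2)
    (by exact_mod_cast hpp.ne_zero) h hh
    (by have := isUnit_natCast (p := p) (n := 2)
          ((Nat.coprime_primes hpp Nat.prime_two).mpr (by omega)); exact_mod_cast this)
    (by have := isUnit_natCast (p := p) (n := 3)
          ((Nat.coprime_primes hpp Nat.prime_three).mpr (by omega)); exact_mod_cast this)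
    (fun x hx => h90 h3 x hx) t (bigN p r) hN3 ht htπ
    (by rw [hmq]; exact dvd_pow_self _ (by omega)) (fun x hx => isUnit_one_sub x hx)
  rw [hmq] at hmain
  obtain ⟨w, hw⟩ := hmain
  -- transfer to the rational sum
  set α : ℚ := alpha p r with hα
  have hαeq : α = 1 - (p : ℚ) ^ r / (bigN p r : ℕ) := alpha_eq p r hpp.one_lt
  have htQ : (((bigN p r : ℕ) : ℚ_[p])) * (t : ℚ_[p]) = 1 := by exact_mod_cast congrArg (fun x : ℤ_[p] => (x : ℚ_[p])) ht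
  have hN0 : (((bigN p r : ℕ) : ℚ_[p])) ≠ 0 := left_ne_zero_of_mul_eq_one htQ
  have hαc : ((α : ℚ) : ℚ_[p]) = 1 - (p : ℚ_[p]) ^ r * (t : ℚ_[p]) := by
    rw [hαeq]
    push_cast
    have : (t : ℚ_[p]) = ((bigN p r : ℕ) : ℚ_[p])⁻¹ := eq_inv_of_mul_eq_one_right htQ
    rw [this, div_eq_mul_inv]
  have hprod : ∀ k ≤ m, (((∏ i ∈ range k, (1 - t * ζ i) : ℤ_[p])) : ℚ_[p])
      = (((ascPochhammer ℚ k).eval α / (k.factorial : ℚ) : ℚ) : ℚ_[p]) := by
    intro k hk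
    induction k with
    | zero => simp
    | succ k ih =>
      have ih' := ih (by omega)
      rw [prod_range_succ, PadicInt.coe_mul, ih', ascPochhammer_succ_eval, Nat.factorial_succ]
      have hz := (hζ k (by omega)).1
      have hz' : ((k : ℚ_[p]) + 1) * (ζ k : ℚ_[p]) = (p : ℚ_[p]) ^ r := by
        exact_mod_cast congrArg (fun x : ℤ_[p] => (x : ℚ_[p])) hz
      have hk1 : ((k : ℚ_[p]) + 1) ≠ 0 := by exact_mod_cast Nat.succ_ne_zero k
      have hkf : ((k.factorial : ℕ) : ℚ_[p]) ≠ 0 := by exact_mod_cast Nat.factorial_ne_zero k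
      push_cast
      rw [hαc]
      field_simp
      linear_combination (-(((ascPochhammer ℚ k).eval α : ℚ) : ℚ_[p]) * (t : ℚ_[p])) * hz'
  have hαu : IsUnit (1 - (p : ℤ_[p]) ^ r * t) :=
    isUnit_one_sub _ ((dvd_pow_self _ (by omega)).mul_right _)
  obtain ⟨β, hβ⟩ := hαu.exists_left_inv
  have hβQ : (β : ℚ_[p]) * (1 - (p : ℚ_[p]) ^ r * (t : ℚ_[p])) = 1 := by
    exact_mod_cast congrArg (fun x : ℤ_[p] => (x : ℚ_[p])) hβ
  have hα0 : ((α : ℚ) : ℚ_[p]) ≠ 0 := by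
    rw [hαc]; exact right_ne_zero_of_mul_eq_one hβQ
  have hS : ((α : ℚ) : ℚ_[p]) * ((S p r : ℚ) : ℚ_[p])
      = (((∑ k ∈ range (m + 1), (2 * (k : ℤ_[p]) + 1 - (p : ℤ_[p]) ^ r * t)
          * EE ζ t (bigN p r) k : ℤ_[p])) : ℚ_[p]) := by
    unfold S
    rw [hm, ← hα]
    rw [PadicInt.coe_sum, Rat.cast_sum, mul_sum]
    refine sum_congr rfl fun k hk => ?_
    have hk' : k ≤ m := by have := mem_range.mp hk; omega
    have e2 : ((2 * (k : ℤ_[p]) + 1 - (p : ℤ_[p]) ^ r * t : ℤ_[p]) : ℚ_[p])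
        = 2 * (k : ℚ_[p]) + 1 - (p : ℚ_[p]) ^ r * (t : ℚ_[p]) := by
      have e3 : (2 * (k : ℤ_[p]) + 1 - (p : ℤ_[p]) ^ r * t : ℤ_[p])
          = ((2 * k + 1 : ℕ) : ℤ_[p]) - (p : ℤ_[p]) ^ r * t := by push_cast; ring
      rw [e3, PadicInt.coe_sub, PadicInt.coe_natCast, PadicInt.coe_mul, PadicInt.coe_pow,
        PadicInt.coe_natCast]
      push_cast
      ring
    rw [EE_eq_prod, PadicInt.coe_mul, PadicInt.coe_pow, hprod k hk', e2]
    push_cast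
    rw [← mul_assoc]
    congr 1
    rw [mul_add, mul_div_cancel₀ _ hα0, hαc]
    ring
  rw [hw] at hS
  set x : ℚ := S p r / (p : ℚ) ^ (2 * r + 5) with hx
  have hp0 : (p : ℚ) ≠ 0 := by exact_mod_cast hpp.ne_zero
  have hp0' : (p : ℚ_[p]) ≠ 0 := by exact_mod_cast hpp.ne_zero
  have hxc : ((x : ℚ) : ℚ_[p]) = ((β * w : ℤ_[p]) : ℚ_[p]) := by
    rw [hx]
    push_cast
    rw [div_eq_iff (pow_ne_zero _ hp0')]
    have h1 : ((S p r : ℚ) : ℚ_[p]) = (β : ℚ_[p]) * (((α : ℚ) : ℚ_[p]) * ((S p r : ℚ) : ℚ_[p])) := by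
      rw [← mul_assoc, hαc, hβQ, one_mul]
    rw [h1, hS]
    push_cast
    ring
  have hxn : ‖((x : ℚ) : ℚ_[p])‖ ≤ 1 := by
    rw [hxc]; exact (β * w).2
  have hden := PadicInt.isUnit_den x hxn
  refine ⟨x.num, x.den, ?_, ?_⟩
  · intro hd
    have h1 : ‖((x.den : ℕ) : ℤ_[p])‖ = 1 := PadicInt.isUnit_iff.mp hden
    have h2 : p.Coprime x.den := PadicInt.norm_natCast_eq_one_iff.mp h1
    exact (hpp.coprime_iff_not_dvd.mp h2) (by exact_mod_cast hd)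
  · have h1 : ((x.num : ℤ) : ℚ) / ((x.den : ℤ) : ℚ) = x := by
      exact_mod_cast Rat.num_div_den x
    rw [h1, hx]
    field_simp

end Pool.Agent.Results.MP_3ec1f3_nt.Supercongruence
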